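import Pool.Agent.Helper535.I

set_option autoImplicit false

namespace Pool.Agent.Results.MP_e9bccb_gt.Splittable

universe u

/-- Every compact Hausdorff space that is splittable over the class of Corson compact spaces is
Corson compact. -/
theorem result :
    ∀ (X : Type u) [TopologicalSpace X] [CompactSpace X] [T2Space X],
      (∀ A : Set X, ∃ (Y : Type u) (_ : TopologicalSpace Y), CompactSpace Y ∧ T2Space Y ∧
        (∃ (κ : Type u) (e : Y → κ → ℝ), Topology.IsEmbedding e ∧
          ∀ y, {i : κ | e y i ≠ 0}.Countable) ∧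
        ∃ f : X → Y, Continuous f ∧ f ⁻¹' (f '' A) = A) →
      ∃ (κ : Type u) (e : X → κ → ℝ), Topology.IsEmbedding e ∧
        ∀ x, {i : κ | e x i ≠ 0}.Countable := by
  intro X _ _ _ h
  have hS : Pool.Agent.Helper535.Splits X := by
    apply Pool.Agent.Helper535.splits_of_maps
    intro B
    obtain ⟨Y, tY, _, _, ⟨κ, e, he, hsupp⟩, f, hf, hB⟩ := h B
    exact ⟨Y, tY, κ, e, f, he.continuous, he.injective, hsupp, hf, hB⟩
  exact Pool.Agent.Helper535.embedding_of_corson hS.corson

end Pool.Agent.Results.MP_e9bccb_gt.Splittable
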